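import Mathlib

/-!
# Colliding orbits for `g(z) + λ` over the algebraic closure of `𝔽_p`: a negative answer

For every prime `p` we exhibit non-additive polynomials `g` of arbitrarily large degree (with
`g(0) = 0`, so they are not an additive polynomial plus a constant either) and points `α₁, α₂, β` such that for
no parameter `λ` do the forward orbits of `α₁` and `α₂` under `z ↦ g(z) + λ` both pass through `β`.

The polynomials are `g = X + (X^(p^2) - X)^(p^j+1)`; the maps `g_λ` commute with the translations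
by elements of `𝔽_{p^2}`, and `α₁ = 1`, `α₂ ∈ 𝔽_{p^2} \ 𝔽_p`, `β = 0`.
-/

namespace Pool.Agent.Results.MP_e06cf1_nt.CollidingEmpty

open Polynomial

/-- `g` is additive: `g(x + y) = g(x) + g(y)`.  (Over an infinite field it is the same to ask this
for all elements `x`, `y` of the field or as an identity of polynomials in `x` and `y`.) -/
def IsAdditive {K : Type*} [Field K] (g : K[X]) : Prop :=
  ∀ x y : K, g.eval (x + y) = g.eval x + g.eval y

/-- The set `C_g(α₁, α₂; β)` of the parameters `λ` for which there are `m, n ≥ 1` with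
`g_λ^m(α₁) = g_λ^n(α₂) = β`, where `g_λ(z) = g(z) + λ`. -/
def collidingSet {K : Type*} [Field K] (g : K[X]) (α₁ α₂ β : K) : Set K :=
  {l | ∃ m n : ℕ, 1 ≤ m ∧ 1 ≤ n ∧
    (fun z => g.eval z + l)^[m] α₁ = β ∧ (fun z => g.eval z + l)^[n] α₂ = β}

section trans

variable {K : Type*} [Field K]

/-- iterates of a map commuting with the translations by elements of `V`. -/
lemma iterate_trans (f : K → K) (V : Set K) (hf : ∀ z, ∀ v ∈ V, f (z + v) = f z + v)
    (m : ℕ) (z v : K) (hv : v ∈ V) : f^[m] (z + v) = f^[m] z + v := by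
  induction m generalizing z with
  | zero => rfl
  | succ m ih =>
    rw [Function.iterate_succ_apply, Function.iterate_succ_apply, hf z v hv, ih]

/-- The return times: if `f^m(0) = a` and `f^n(0) = b` are both in `V`, then there is `c ∈ V` such
that `a` and `b` are both natural multiples of `c`. -/
lemma exists_common (f : K → K) (V : AddSubgroup K)
    (hf : ∀ z, ∀ v ∈ V, f (z + v) = f z + v) :
    ∀ N m n : ℕ, m + n = N → ∀ a ∈ V, ∀ b ∈ V, f^[m] 0 = a → f^[n] 0 = b →
      ∃ c ∈ V, ∃ i j : ℕ, a = i • c ∧ b = j • c := by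
  intro N
  induction N using Nat.strong_induction_on with
  | _ N ih =>
    intro m n hmn a ha b hb hma hnb
    wlog hle : m ≤ n generalizing m n a b with H
    · obtain ⟨c, hc, i, j, h1, h2⟩ := H n m (by omega) b hb a ha hnb hma (by omega)
      exact ⟨c, hc, j, i, h2, h1⟩
    rcases Nat.eq_zero_or_pos m with h0 | h0
    · subst h0
      refine ⟨b, hb, 0, 1, ?_, by simp⟩
      simpa using hma.symm
    · -- `f^n(0) = f^(n-m)(f^m(0)) = f^(n-m)(0) + a`
      obtain ⟨k, rfl⟩ := Nat.exists_eq_add_of_le hle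
      have h1 : f^[k] 0 = b - a := by
        have : f^[m + k] 0 = f^[k] (f^[m] 0) := by
          rw [add_comm, Function.iterate_add_apply]
        rw [this, hma] at hnb
        have h2 := iterate_trans f (V : Set K) hf k 0 a ha
        rw [zero_add] at h2
        rw [h2] at hnb
        rw [← hnb]; ring
      obtain ⟨c, hc, i, j, h2, h3⟩ := ih (m + k) (by omega) m k rfl a ha (b - a)
        (V.sub_mem hb ha) hma h1
      refine ⟨c, hc, i, j + i, h2, ?_⟩
      rw [add_smul, ← h2, ← h3]; ring

end trans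

variable (p : ℕ) [hp : Fact p.Prime]


/-- The polynomial `X + (X^(p^2) - X)^(p^j+1)`. -/
noncomputable def G (j : ℕ) : (AlgebraicClosure (ZMod p))[X] := X + (X ^ (p ^ 2) - X) ^ (p ^ j + 1)

/-- The subfield with `p^2` elements, as an additive group. -/
noncomputable def V : AddSubgroup (AlgebraicClosure (ZMod p)) where
  carrier := {v | v ^ (p ^ 2) = v}
  add_mem' := by
    intro a b ha hb
    have ha' : a ^ (p ^ 2) = a := ha
    have hb' : b ^ (p ^ 2) = b := hb
    change (a + b) ^ (p ^ 2) = a + b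
    rw [add_pow_char_pow, ha', hb']
  zero_mem' := by
    change (0 : (AlgebraicClosure (ZMod p))) ^ (p ^ 2) = 0
    exact zero_pow (pow_ne_zero _ hp.out.ne_zero)
  neg_mem' := by
    intro a ha
    have ha' : a ^ (p ^ 2) = a := ha
    change (-a) ^ (p ^ 2) = -a
    have h := sub_pow_char_pow (R := (AlgebraicClosure (ZMod p))) (p := p) (n := 2) 0 a
    rw [zero_pow (pow_ne_zero _ hp.out.ne_zero), zero_sub, zero_sub] at h
    rw [h, ha']

lemma eval_G (j : ℕ) (z : (AlgebraicClosure (ZMod p))) : (G p j).eval z = z + (z ^ (p ^ 2) - z) ^ (p ^ j + 1) := by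
  simp [G]

lemma G_trans (j : ℕ) (l z v : (AlgebraicClosure (ZMod p))) (hv : v ∈ V p) :
    (G p j).eval (z + v) + l = ((G p j).eval z + l) + v := by
  have hv' : v ^ (p ^ 2) = v := hv
  rw [eval_G, eval_G, add_pow_char_pow, hv']
  ring

/-- there is an element of `𝔽_{p^2}` outside `𝔽_p`. -/
lemma exists_omega : ∃ w ∈ V p, w ^ p ≠ w := by
  by_contra hcon
  push Not at hcon
  have hp1 : 1 < p := hp.out.one_lt
  have hp2 : 1 < p ^ 2 := Nat.one_lt_pow (by norm_num) hp1
  set f : (AlgebraicClosure (ZMod p))[X] := X ^ (p ^ 2) - X with hf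
  set g : (AlgebraicClosure (ZMod p))[X] := X ^ p - X with hg
  have hfdeg : f.natDegree = p ^ 2 := FiniteField.X_pow_card_sub_X_natDegree_eq (AlgebraicClosure (ZMod p)) hp2
  have hgdeg : g.natDegree = p := FiniteField.X_pow_card_sub_X_natDegree_eq (AlgebraicClosure (ZMod p)) hp1
  have hg0 : g ≠ 0 := FiniteField.X_pow_card_sub_X_ne_zero (AlgebraicClosure (ZMod p)) hp1
  have hf0 : f ≠ 0 := FiniteField.X_pow_card_sub_X_ne_zero (AlgebraicClosure (ZMod p)) hp2
  have hsep : f.Separable := galois_poly_separable p (p ^ 2) (dvd_pow_self p (by norm_num))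
  have hcard : Multiset.card f.roots = p ^ 2 := by
    rw [← hfdeg]
    exact ((IsAlgClosed.splits f).natDegree_eq_card_roots).symm
  have hnodup : f.roots.Nodup := nodup_roots hsep
  have hsub : f.roots ≤ g.roots := by
    rw [Multiset.le_iff_subset hnodup]
    intro x hx
    rw [mem_roots hf0, IsRoot.def, hf, eval_sub, eval_pow, eval_X, sub_eq_zero] at hx
    rw [mem_roots hg0, IsRoot.def, hg, eval_sub, eval_pow, eval_X, sub_eq_zero]
    exact hcon x hx
  have h1 := Multiset.card_le_card hsub
  have h2 := g.card_roots'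
  rw [hcard] at h1
  rw [hgdeg] at h2
  nlinarith

/-- a natural multiple of `c` is fixed by Frobenius if another, nonzero in the field, multiple is `1`. -/
lemma frob_of_multiples {c w : (AlgebraicClosure (ZMod p))} {i j : ℕ} (h1 : (1 : (AlgebraicClosure (ZMod p))) = i • c) (h2 : w = j • c) :
    w ^ p = w := by
  have hi : (i : (AlgebraicClosure (ZMod p))) ≠ 0 := by
    intro h
    rw [nsmul_eq_mul, h, zero_mul] at h1
    exact one_ne_zero h1
  have hnat : ∀ n : ℕ, (n : (AlgebraicClosure (ZMod p))) ^ p = (n : (AlgebraicClosure (ZMod p))) := by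
    intro n
    have := map_natCast (frobenius (AlgebraicClosure (ZMod p)) p) n
    rwa [frobenius_def] at this
  have hc : c ^ p = c := by
    have h3 : (i : (AlgebraicClosure (ZMod p))) * c = 1 := by rw [← nsmul_eq_mul]; exact h1.symm
    have h4 : (i : (AlgebraicClosure (ZMod p))) * c ^ p = 1 := by
      have := congrArg (· ^ p) h3
      simp only [mul_pow, hnat, one_pow] at this
      exact this
    exact mul_left_cancel₀ hi (h4.trans h3.symm)
  rw [h2, nsmul_eq_mul, mul_pow, hnat, hc]

/-- `z ↦ z^(p^2) - z` is onto. -/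
lemma exists_pre (w : (AlgebraicClosure (ZMod p))) : ∃ z : (AlgebraicClosure (ZMod p)), z ^ (p ^ 2) - z = w := by
  have hp1 : 1 < p := hp.out.one_lt
  have hp2 : 1 < p ^ 2 := Nat.one_lt_pow (by norm_num) hp1
  have hdeg : (X ^ (p ^ 2) - X - C w : (AlgebraicClosure (ZMod p))[X]).degree ≠ 0 := by
    have h1 : (X ^ (p ^ 2) - X - C w : (AlgebraicClosure (ZMod p))[X]).natDegree = p ^ 2 := by
      rw [natDegree_sub_C]
      exact FiniteField.X_pow_card_sub_X_natDegree_eq (AlgebraicClosure (ZMod p)) hp2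
    intro h
    have := natDegree_eq_zero_iff_degree_le_zero.mpr h.le
    omega
  obtain ⟨z, hz⟩ := IsAlgClosed.exists_root _ hdeg
  refine ⟨z, ?_⟩
  rw [IsRoot.def, eval_sub, eval_sub, eval_pow, eval_X, eval_C, sub_eq_zero] at hz
  exact hz

/-- `w ↦ w^(p^j+1)` is not additive. -/
lemma exists_not_add (j : ℕ) (hj : 1 ≤ j) : ∃ w : (AlgebraicClosure (ZMod p)), w ^ (p ^ j) + w ≠ 0 := by
  by_contra hcon
  push Not at hcon
  have hp1 : 1 < p := hp.out.one_lt
  have hp2 : 1 < p ^ j := Nat.one_lt_pow (by omega) hp1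
  have hdeg : (X ^ (p ^ j) + X : (AlgebraicClosure (ZMod p))[X]).natDegree = p ^ j := by
    have : (X ^ (p ^ j) + X : (AlgebraicClosure (ZMod p))[X]).natDegree = (X ^ (p ^ j) : (AlgebraicClosure (ZMod p))[X]).natDegree := by
      apply natDegree_add_eq_left_of_natDegree_lt
      rw [natDegree_X_pow, natDegree_X]
      exact hp2
    rw [this, natDegree_X_pow]
  have h0 : (X ^ (p ^ j) + X : (AlgebraicClosure (ZMod p))[X]) = 0 := by
    apply Polynomial.funext
    intro w
    simpa using hcon w
  rw [h0, natDegree_zero] at hdeg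
  omega

lemma G_not_additive (j : ℕ) (hj : 1 ≤ j) : ¬ IsAdditive (G p j) := by
  intro hadd
  obtain ⟨w, hw⟩ := exists_not_add p j hj
  obtain ⟨x, hx⟩ := exists_pre p w
  obtain ⟨y, hy⟩ := exists_pre p 1
  have h := hadd x y
  rw [eval_G, eval_G, eval_G, add_pow_char_pow] at h
  have h1 : x ^ p ^ 2 + y ^ p ^ 2 - (x + y) = w + 1 := by rw [← hx, ← hy]; ring
  rw [h1, hx, hy, pow_succ, add_pow_char_pow, one_pow, pow_succ, one_pow] at h
  apply hw
  linear_combination h

lemma G_natDegree (j : ℕ) : (G p j).natDegree = p ^ 2 * (p ^ j + 1) := by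
  have hp1 : 1 < p := hp.out.one_lt
  have hp2 : 1 < p ^ 2 := Nat.one_lt_pow (by norm_num) hp1
  have h1 : ((X ^ (p ^ 2) - X : (AlgebraicClosure (ZMod p))[X]) ^ (p ^ j + 1)).natDegree = p ^ 2 * (p ^ j + 1) := by
    rw [natDegree_pow, FiniteField.X_pow_card_sub_X_natDegree_eq (AlgebraicClosure (ZMod p)) hp2]
    ring
  unfold G
  rw [natDegree_add_eq_right_of_natDegree_lt, h1]
  rw [h1, natDegree_X]
  nlinarith [pow_pos hp.out.pos j]

lemma G_coeff_zero (j : ℕ) : (G p j).coeff 0 = 0 := by
  rw [coeff_zero_eq_eval_zero, eval_G, zero_pow (pow_ne_zero _ hp.out.ne_zero)]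
  simp

/-- **Main result.**  For every prime `p` there are points `α₁, α₂, β` of the algebraic closure of
`𝔽_p` such that for every bound `N` there is a non-additive polynomial `g` of degree at least `N`
(and at least `2`), with `g(0) = 0`, for which the set of the parameters `λ` such that the forward
orbits of `α₁` and `α₂` under `z ↦ g(z) + λ` both pass through `β` is empty. -/
theorem result (p : ℕ) [Fact p.Prime] :
    ∃ α₁ α₂ β : AlgebraicClosure (ZMod p), ∀ N : ℕ,
      ∃ g : Polynomial (AlgebraicClosure (ZMod p)),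
        N ≤ g.natDegree ∧ 2 ≤ g.natDegree ∧ g.coeff 0 = 0 ∧ ¬ IsAdditive g ∧
        collidingSet g α₁ α₂ β = ∅ := by
  obtain ⟨w, hw, hwp⟩ := exists_omega p
  refine ⟨1, w, 0, fun N => ⟨G p (N + 1), ?_, ?_, G_coeff_zero p _,
    G_not_additive p _ (by omega), ?_⟩⟩
  · rw [G_natDegree]
    have h1 : N + 1 < p ^ (N + 1) := Nat.lt_pow_self (Fact.out : p.Prime).one_lt
    have h2 : 0 < p ^ 2 := pow_pos (Fact.out : p.Prime).pos 2
    nlinarith
  · rw [G_natDegree]
    have h2 : 0 < p ^ 2 := pow_pos (Fact.out : p.Prime).pos 2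
    have h3 : 1 < p ^ (N + 1) := Nat.one_lt_pow (by omega) (Fact.out : p.Prime).one_lt
    nlinarith
  · rw [Set.eq_empty_iff_forall_notMem]
    rintro l ⟨m, n, -, -, hm, hn⟩
    set f : AlgebraicClosure (ZMod p) → AlgebraicClosure (ZMod p) :=
      fun z => (G p (N + 1)).eval z + l with hf
    have hV : ∀ z, ∀ v ∈ V p, f (z + v) = f z + v := fun z v hv => G_trans p (N + 1) l z v hv
    have h1V : (1 : AlgebraicClosure (ZMod p)) ∈ V p := one_pow _
    have key : ∀ (k : ℕ) (v : AlgebraicClosure (ZMod p)), v ∈ V p → f^[k] v = 0 →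
        f^[k] 0 = -v := by
      intro k v hv hk
      have h2 := iterate_trans f (V p : Set _) hV k 0 v hv
      rw [zero_add, hk] at h2
      linear_combination -h2
    have hm' := key m 1 h1V hm
    have hn' := key n w hw hn
    obtain ⟨c, -, i, j, h3, h4⟩ := exists_common f (V p) hV (m + n) m n rfl (-1)
      ((V p).neg_mem h1V) (-w) ((V p).neg_mem hw) hm' hn'
    apply hwp
    refine frob_of_multiples p (c := -c) (i := i) (j := j) ?_ ?_
    · rw [smul_neg, ← h3, neg_neg]
    · rw [smul_neg, ← h4, neg_neg]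

end Pool.Agent.Results.MP_e06cf1_nt.CollidingEmpty
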